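import Pool.Agent.W761.CP.Defs

set_option autoImplicit false

/-!
Project CP (MP_c84763_mp), part OUT: the bound for the outer operator.
-/

open MeasureTheory
open scoped ENNReal InnerProductSpace

namespace Pool.Agent.W53.CP

open Pool.Agent.W761.CP
open Pool.Agent.Helper209.CX (Ed L2d)

theorem int_sq {d : ℕ} (u : L2d d) : Integrable (fun x => ‖u x‖ ^ 2) volume := by
  have h := (Lp.memLp u).integrable_norm_pow (by norm_num)
  simpa using h

theorem norm_sq {d : ℕ} (u : L2d d) : ‖u‖ ^ 2 = ∫ x, ‖u x‖ ^ 2 := by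
  have h1 : ((‖u‖ ^ 2 : ℝ) : ℂ) = ((∫ x, ‖u x‖ ^ 2 : ℝ) : ℂ) := by
    have h2 : ((‖u‖ ^ 2 : ℝ) : ℂ) = ⟪u, u⟫_ℂ := by
      rw [inner_self_eq_norm_sq_to_K]; simp
    rw [h2, L2.inner_def, ← integral_complex_ofReal]
    refine integral_congr_ae (Filter.Eventually.of_forall fun x => ?_)
    simp only
    rw [inner_self_eq_norm_sq_to_K]; simp
  exact_mod_cast h1

/-- the bound of the weighted scalar product -/
theorem wbound {d : ℕ} (φ : Ed d → ℝ) (hc : Continuous φ) (h1 : ∀ x, φ x ^ 2 ≤ 1) (u f : L2d d) :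
    Integrable (fun x => ((φ x : ℂ) ^ 2) * (f x * (starRingEnd ℂ) (u x))) volume ∧
    |(∫ x, ((φ x : ℂ) ^ 2) * (f x * (starRingEnd ℂ) (u x))).re| ≤ ‖u‖ * ‖f‖ := by
  have hb : ∀ x, ‖((φ x : ℂ) ^ 2) * f x‖ ≤ ‖f x‖ := by
    intro x
    rw [norm_mul, norm_pow, Complex.norm_real, Real.norm_eq_abs, sq_abs]
    have h2 := h1 x
    nlinarith [norm_nonneg (f x)]
  have hm : AEStronglyMeasurable (fun x => ((φ x : ℂ) ^ 2) * f x) volume := by
    refine AEStronglyMeasurable.mul ?_ (Lp.aestronglyMeasurable f)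
    exact ((Complex.continuous_ofReal.comp hc).pow 2).aestronglyMeasurable
  have hw : MemLp (fun x => ((φ x : ℂ) ^ 2) * f x) 2 volume :=
    (Lp.memLp f).mono hm (Filter.Eventually.of_forall hb)
  have hwn : ‖hw.toLp‖ ≤ ‖f‖ := by
    refine Lp.norm_le_norm_of_ae_le ?_
    filter_upwards [hw.coeFn_toLp] with x hx
    rw [hx]
    exact hb x
  have he : (fun x => ((φ x : ℂ) ^ 2) * (f x * (starRingEnd ℂ) (u x))) =ᵐ[volume]
      fun x => ⟪u x, (hw.toLp) x⟫_ℂ := by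
    filter_upwards [hw.coeFn_toLp] with x hx
    rw [hx, RCLike.inner_apply]
    ring
  constructor
  · exact (L2.integrable_inner u hw.toLp).congr he.symm
  · rw [integral_congr_ae he, ← L2.inner_def]
    refine (Complex.abs_re_le_norm _).trans ?_
    refine (norm_inner_le_norm _ _).trans ?_
    exact mul_le_mul_of_nonneg_left hwn (norm_nonneg _)

theorem out : S_E1 → S_E0 → S_OUT := by
  intro hE1 hE0 d h M C V φ u f z hh hM hFB hre him hφ hφ1 _ hwall hpd hC hzre hzim hHu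
  obtain ⟨g, hg, -⟩ := id hHu
  obtain ⟨hVm, C', hC', hFB'⟩ := id hFB
  obtain ⟨hVint, -⟩ := hFB' u g hg
  have hc : Continuous φ := hφ.smooth.continuous
  have e1 := hE1 d h V u (z • u + f) g φ hFB hHu hg hφ
  have e0 := (hE0 d h V u (z • u + f) g hFB hHu hg).2
  have hiu := int_sq u
  have hnu := norm_sq u
  -- integrability
  have hVu_re : Integrable (fun x => (V x).re * (φ x ^ 2 * ‖u x‖ ^ 2)) volume := by
    refine hVint.mono ?_ (Filter.Eventually.of_forall fun x => ?_)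
    · refine AEStronglyMeasurable.mul ?_ (AEStronglyMeasurable.mul ?_ ?_)
      · exact (Complex.measurable_re.comp hVm).aestronglyMeasurable
      · exact (hc.pow 2).aestronglyMeasurable
      · exact hiu.aestronglyMeasurable
    · simp only [norm_mul, norm_pow, Real.norm_eq_abs, abs_norm, sq_abs]
      have a1 : |(V x).re| ≤ ‖V x‖ := Complex.abs_re_le_norm _
      have a2 : φ x ^ 2 * ‖u x‖ ^ 2 ≤ ‖u x‖ ^ 2 := by nlinarith [hφ1 x, sq_nonneg ‖u x‖]
      exact mul_le_mul a1 a2 (by positivity) (norm_nonneg _)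
  have hVu_im : Integrable (fun x => (V x).im * ‖u x‖ ^ 2) volume := by
    refine hVint.mono ?_ (Filter.Eventually.of_forall fun x => ?_)
    · refine AEStronglyMeasurable.mul ?_ ?_
      · exact (Complex.measurable_im.comp hVm).aestronglyMeasurable
      · exact hiu.aestronglyMeasurable
    · simp only [norm_mul, norm_pow, Real.norm_eq_abs, abs_norm]
      exact mul_le_mul_of_nonneg_right (Complex.abs_im_le_norm _) (by positivity)
  have hφu : Integrable (fun x => φ x ^ 2 * ‖u x‖ ^ 2) volume := by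
    refine hiu.mono ?_ (Filter.Eventually.of_forall fun x => ?_)
    · exact AEStronglyMeasurable.mul (hc.pow 2).aestronglyMeasurable hiu.aestronglyMeasurable
    · simp only [norm_mul, norm_pow, Real.norm_eq_abs, abs_norm, sq_abs]
      nlinarith [hφ1 x, sq_nonneg ‖u x‖]
  set I : ℝ := ∫ x, φ x ^ 2 * ‖u x‖ ^ 2 with hI
  -- the wall
  have s1 : M * I ≤ ∫ x, (V x).re * (φ x ^ 2 * ‖u x‖ ^ 2) := by
    rw [hI, ← integral_const_mul]
    refine integral_mono_ae (hφu.const_mul M) hVu_re ?_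
    filter_upwards [hwall] with x hx
    by_cases h0 : φ x = 0
    · simp [h0]
    · exact mul_le_mul_of_nonneg_right (hx h0) (by positivity)
  -- the gradient of the cutoff
  have s2 : ∫ x, (∑ k, pd k φ x ^ 2) * ‖u x‖ ^ 2 ≤ C * ‖u‖ ^ 2 := by
    rw [hnu, ← integral_const_mul]
    refine integral_mono_of_nonneg (Filter.Eventually.of_forall fun x => ?_) (hiu.const_mul C)
      (Filter.Eventually.of_forall fun x => ?_)
    · exact mul_nonneg (Finset.sum_nonneg fun k _ => sq_nonneg _) (sq_nonneg _)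
    · exact mul_le_mul_of_nonneg_right (hpd x) (sq_nonneg _)
  -- the right hand side
  obtain ⟨hfi, hfb⟩ := wbound φ hc hφ1 u f
  have s3 : (∫ x, ((φ x : ℂ) ^ 2) * ((z • u + f : L2d d) x * (starRingEnd ℂ) (u x))).re
      = z.re * I + (∫ x, ((φ x : ℂ) ^ 2) * (f x * (starRingEnd ℂ) (u x))).re := by
    have he : (fun x => ((φ x : ℂ) ^ 2) * ((z • u + f : L2d d) x * (starRingEnd ℂ) (u x)))
        =ᵐ[volume] fun x => z * (((φ x ^ 2 * ‖u x‖ ^ 2 : ℝ)) : ℂ) +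
          ((φ x : ℂ) ^ 2) * (f x * (starRingEnd ℂ) (u x)) := by
      filter_upwards [Lp.coeFn_add (z • u) f, Lp.coeFn_smul z u] with x hx1 hx2
      rw [hx1, Pi.add_apply, hx2, Pi.smul_apply, smul_eq_mul]
      have : u x * (starRingEnd ℂ) (u x) = ((‖u x‖ ^ 2 : ℝ) : ℂ) := by
        rw [Complex.mul_conj, Complex.normSq_eq_norm_sq]
      push_cast
      push_cast at this
      linear_combination z * (φ x : ℂ) ^ 2 * this
    have hi1 : Integrable (fun x => z * (((φ x ^ 2 * ‖u x‖ ^ 2 : ℝ)) : ℂ)) volume :=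
      (hφu.ofReal (𝕜 := ℂ)).const_mul z
    rw [integral_congr_ae he, integral_add hi1 hfi, integral_const_mul,
      integral_complex_ofReal, Complex.add_re, Complex.re_mul_ofReal]
  have hI0 : 0 ≤ I := integral_nonneg fun x => by positivity
  have hIu : ∫ x, (V x).im * ‖u x‖ ^ 2 ≤ I := by
    refine integral_mono hVu_im hφu fun x => ?_
    exact mul_le_mul_of_nonneg_right (him x) (sq_nonneg _)
  have s4 : (⟪u, z • u + f⟫_ℂ).im = z.im * ‖u‖ ^ 2 + (⟪u, f⟫_ℂ).im := by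
    rw [inner_add_right, inner_smul_right, inner_self_eq_norm_sq_to_K, Complex.add_im]
    congr 1
    have : ((‖u‖ : ℂ)) ^ 2 = ((‖u‖ ^ 2 : ℝ) : ℂ) := by push_cast; rfl
    simp only [Complex.coe_algebraMap]
    rw [this, Complex.im_mul_ofReal]
  have s5 : |(⟪u, f⟫_ℂ).im| ≤ ‖u‖ * ‖f‖ :=
    (Complex.abs_im_le_norm _).trans (norm_inner_le_norm _ _)
  have s6 : 0 ≤ h ^ 2 * (∑ k, ‖mulR φ (g k) + mulR (pd k φ) u‖ ^ 2) :=
    mul_nonneg (sq_nonneg _) (Finset.sum_nonneg fun k _ => sq_nonneg _)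
  rw [s3] at e1
  rw [s4] at e0
  have a1 := abs_le.1 hfb
  have a2 := abs_le.1 s5
  -- (M/2) I ≤ h² C ‖u‖² + ‖u‖ ‖f‖
  have b1 : M / 2 * I ≤ h ^ 2 * C * ‖u‖ ^ 2 + ‖u‖ * ‖f‖ := by
    have b2 : h ^ 2 * (∫ x, (∑ k, pd k φ x ^ 2) * ‖u x‖ ^ 2) ≤ h ^ 2 * (C * ‖u‖ ^ 2) :=
      mul_le_mul_of_nonneg_left s2 (sq_nonneg _)
    have b3 : z.re * I ≤ M / 2 * I := mul_le_mul_of_nonneg_right hzre hI0
    nlinarith [a1.1, a1.2]
  have b4 : 1 / 2 * ‖u‖ ^ 2 ≤ z.im * ‖u‖ ^ 2 := mul_le_mul_of_nonneg_right hzim (sq_nonneg _)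
  have b5 : 1 / 2 * ‖u‖ ^ 2 ≤ I + ‖u‖ * ‖f‖ := by linarith [a2.1, a2.2]
  have b6 : h ^ 2 * C * ‖u‖ ^ 2 ≤ M / 8 * ‖u‖ ^ 2 :=
    mul_le_mul_of_nonneg_right (by linarith) (sq_nonneg _)
  have hMpos : 0 < M := by linarith
  have b7 : I ≤ 1 / 4 * ‖u‖ ^ 2 + ‖u‖ * ‖f‖ := by
    have b8 : M * I ≤ M * (1 / 4 * ‖u‖ ^ 2 + ‖u‖ * ‖f‖) := by
      have : 2 * (‖u‖ * ‖f‖) ≤ M * (‖u‖ * ‖f‖) :=
        mul_le_mul_of_nonneg_right hM (by positivity)
      nlinarith
    exact le_of_mul_le_mul_left b8 hMpos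
  have b9 : ‖u‖ ^ 2 ≤ 8 * (‖u‖ * ‖f‖) := by linarith
  by_cases hu : ‖u‖ = 0
  · rw [hu]; positivity
  · have hu' : 0 < ‖u‖ := lt_of_le_of_ne (norm_nonneg _) (Ne.symm hu)
    have : ‖u‖ * ‖u‖ ≤ ‖u‖ * (8 * ‖f‖) := by nlinarith
    exact le_of_mul_le_mul_left this hu'

end Pool.Agent.W53.CP
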